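import Pool.Agent.Helper87.Irr.GoalsT

/-!
MP_033e98_co, packet Broom: double brooms.
-/

namespace Pool.Agent.Helper10.Irr

open Irr37 Irr87

theorem zrun_succ' (n : ℕ) (t : RF) : zrun (n + 1) t = zrun n (RF.cons 0 t RF.nil) := by
  induction n with
  | zero => rfl
  | succ n ih => exact congrArg (fun s => RF.cons 0 s RF.nil) ih

theorem zrun_single (n b : ℕ) : ∃ l c, zrun n (bot b) = RF.cons l c RF.nil := by
  cases n with
  | zero => exact ⟨b, RF.nil, rfl⟩
  | succ n => exact ⟨0, zrun n (bot b), rfl⟩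

theorem eqv_zrun (b' n : ℕ) : ∀ (l : ℕ) (T : RF),
    Eqv l (app (zrun n (bot b')) T) b' (zrun n (RF.cons l T RF.nil)) := by
  induction n with
  | zero => intro l T; exact Eqv.reroot l b' RF.nil T
  | succ n ih =>
    intro l T
    have h1 : Eqv l (app (zrun (n + 1) (bot b')) T) 0 (RF.cons l T (zrun n (bot b'))) :=
      Eqv.reroot l 0 (zrun n (bot b')) T
    have h2 : Eqv 0 (RF.cons l T (zrun n (bot b'))) 0
        (app (zrun n (bot b')) (RF.cons l T RF.nil)) := by
      obtain ⟨m, c, hc⟩ := zrun_single n b'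
      rw [hc]
      exact Eqv.perm 0 (RF.Perm.swap l m T c RF.nil)
    have h3 := ih 0 (RF.cons l T RF.nil)
    rw [← zrun_succ'] at h3
    exact h1.trans (h2.trans h3)

theorem eqv_broom (b b' n : ℕ) : Eqv b (zrun n (bot b')) b' (zrun n (bot b)) := by
  have := eqv_zrun b' n b RF.nil
  rw [app_nil] at this
  exact this

/-- the main case: the bottom has at least three leaves -/
theorem broom_main (hRE : RE) (p b b' r : ℕ) (hp : 3 ≤ p) (hb : 1 ≤ b) (hb' : 3 ≤ b')
    (hbb : b + b' = p) (hr : 1 ≤ r) (hrp : r + 2 ≤ p + 1) : Solved p b (zrun r (bot b')) := by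
  -- the labels at the bottom
  obtain ⟨X, hX1, hX2, hX3⟩ : ∃ X : Finset ℕ, ({p, p - 1, p - 2} : Finset ℕ) ⊆ X ∧
      X ⊆ Finset.Icc 1 p ∧ X.card = b' := by
    apply Finset.exists_subsuperset_card_eq
    · intro x hx
      simp only [Finset.mem_insert, Finset.mem_singleton] at hx
      rw [Finset.mem_Icc]
      omega
    · exact (Finset.card_le_three).trans hb'
    · rw [Nat.card_Icc]; omega
  set Y : Finset ℕ := Finset.Icc 1 p \ X with hY
  have hYc : Y.card = b := by
    rw [hY, Finset.card_sdiff_of_subset hX2, Nat.card_Icc, hX3]; omega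
  have hXsum : 2 * p ≤ X.val.sum := by
    have h1 : ∑ x ∈ ({p, p - 1, p - 2} : Finset ℕ), x ≤ ∑ x ∈ X, x :=
      Finset.sum_le_sum_of_subset hX1
    have h2 : ∑ x ∈ ({p, p - 1, p - 2} : Finset ℕ), x = p + ((p - 1) + (p - 2)) := by
      rw [Finset.sum_insert, Finset.sum_insert, Finset.sum_singleton]
      · simp only [Finset.mem_singleton]; omega
      · simp only [Finset.mem_insert, Finset.mem_singleton]; omega
    have h3 : ∑ x ∈ X, x = X.val.sum := by rw [Finset.sum_eq_multiset_sum, Multiset.map_id']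
    omega
  have hYsum : 1 ≤ Y.val.sum := by
    obtain ⟨y, hy⟩ : Y.Nonempty := by rw [← Finset.card_pos]; omega
    have h1 : y ≤ Y.val.sum := Multiset.single_le_sum (fun _ _ => Nat.zero_le _) y hy
    have h2 : y ∈ Finset.Icc 1 p := (Finset.mem_sdiff.1 hy).1
    rw [Finset.mem_Icc] at h2
    omega
  have hXY : Y.val + X.val = (Finset.Icc 1 p).val := by
    have h1 : Y ∪ X = Finset.Icc 1 p := by
      rw [hY]; exact Finset.sdiff_union_of_subset hX2
    have h2 : Disjoint Y X := by rw [hY]; exact Finset.sdiff_disjoint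
    rw [← h1, ← Finset.disjUnion_eq_union _ _ h2]
    rfl
  set w0 := Y.val.sum + p with hw0
  obtain ⟨Dss, hs, w, hruns, hnd, hV, hw, hpw, hwV⟩ := hRE p r 0 0 X.val.sum {w0} hr
    (by intro y hy; have : y = 0 := by omega
        subst this; exact Nat.zero_le _) (by omega) (by rw [Finset.card_singleton]; omega)
  -- unpack the runs
  match Dss, hs, hruns with
  | [Ds], [h], hruns =>
    obtain ⟨h1, h2, h3, -⟩ := hruns
    simp only [List.flatten_cons, List.flatten_nil, List.append_nil] at hnd hV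
    simp only [List.sum_cons, List.sum_nil, List.length_cons, List.length_nil] at hw
    have hps := PS.exclLeg (X := X.val) h3 h2
    rw [h1] at hps
    obtain ⟨G, hG1, hG2, hG3⟩ := hps.complete (by omega) LF.nil 0 rfl
      (by simpa [RF.width] using Sol.nil)
    have hlt : ∀ D ∈ Ds, D < p := (ChS_self h2).le
    have hcard : Multiset.card X.val = b' := hX3
    rw [hcard] at hG1
    have hwe : X.val.sum + (p - h) = w := by omega
    rw [hwe, add_zero] at hG3
    refine ⟨Y.val, G, p, _, hYc, hG1, ?_, hG3, ?_, ?_⟩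
    · rw [hG2]
      simp only [LF.labels, add_zero]
      exact hXY
    · rw [Multiset.nodup_cons, Multiset.nodup_cons]
      refine ⟨?_, ?_, ?_⟩
      · intro hmem
        rcases Multiset.mem_cons.1 hmem with hmem | hmem
        · exact hwV (by rw [Finset.mem_singleton, hw0]; exact hmem.symm)
        · obtain ⟨D, hD, hD'⟩ := mem_wts.1 hmem
          exact (hV D hD).1 (by rw [Finset.mem_singleton, hw0]; exact hD')
      · intro hmem
        obtain ⟨D, hD, hD'⟩ := mem_wts.1 hmem
        exact (hV D hD).2 hD'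
      · unfold wts
        rw [Multiset.coe_nodup]
        refine List.Nodup.map_on ?_ hnd
        intro x hx y hy hxy
        have := hlt x hx
        have := hlt y hy
        omega
    · intro u hu
      rcases Multiset.mem_cons.1 hu with rfl | hu
      · omega
      rcases Multiset.mem_cons.1 hu with rfl | hu
      · exact hpw
      obtain ⟨D, hD, rfl⟩ := mem_wts.1 hu
      have := hlt D hD
      omega
  | [], _, hruns => simp [Runs] at hruns
  | _ :: _ :: _, [], hruns => simp [Runs] at hruns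
  | [_], [], hruns => simp [Runs] at hruns
  | [_], _ :: _ :: _, hruns => simp [Runs] at hruns
  | _ :: _ :: _, [_], hruns => simp [Runs] at hruns
  | _ :: _ :: _, _ :: _ :: _, hruns => simp [Runs] at hruns

/-- an explicit broom from the list of edge labels -/
theorem sol_bot (p : ℕ) (X : Multiset ℕ) (y : ℕ) (h1 : 1 ≤ y) (h2 : y ≤ p) :
    Sol p (LF.cons X LF.nil LF.nil) y {X.sum + y} := by
  have := Sol.cons (p := p) (A := X) h1 h2 Sol.nil Sol.nil
  simpa using this

theorem sol_zero {p : ℕ} {f : LF} {x : ℕ} {W : Multiset ℕ} (h : Sol p f x W) (y : ℕ)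
    (h1 : 1 ≤ y) (h2 : y ≤ p) : Sol p (LF.cons 0 f LF.nil) y ((x + y) ::ₘ W) := by
  have := Sol.cons (p := p) (A := 0) h1 h2 h Sol.nil
  simpa using this

theorem broom_small (p b b' r : ℕ) (hp : 3 ≤ p) (hb : 1 ≤ b) (hb' : 1 ≤ b') (hb2 : b ≤ 2)
    (hb2' : b' ≤ 2)
    (hbb : b + b' = p) (hr : 1 ≤ r) (hrp : r + 2 ≤ p + 1) : Solved p b (zrun r (bot b')) := by
  have key3 : ∀ r, 1 ≤ r → r ≤ 2 → Solved 3 1 (zrun r (bot 2)) := by
    intro r hr1 hr2
    have hb := sol_bot 3 {2, 3} 2 (by norm_num) (by norm_num)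
    interval_cases r
    · have h1 := sol_zero hb 3 (by norm_num) (by norm_num)
      refine ⟨{1}, _, _, _, rfl, ?_, ?_, h1, ?_, ?_⟩
      · rfl
      · decide
      · decide
      · decide
    · have h1 := sol_zero hb 3 (by norm_num) (by norm_num)
      have h2 := sol_zero h1 3 (by norm_num) (by norm_num)
      refine ⟨{1}, _, _, _, rfl, ?_, ?_, h2, ?_, ?_⟩
      · rfl
      · decide
      · decide
      · decide
  have key4 : ∀ r, 1 ≤ r → r ≤ 3 → Solved 4 2 (zrun r (bot 2)) := by
    intro r hr1 hr2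
    interval_cases r
    · have hb := sol_bot 4 {3, 4} 4 (by norm_num) (by norm_num)
      have h1 := sol_zero hb 2 (by norm_num) (by norm_num)
      refine ⟨{1, 2}, _, _, _, rfl, ?_, ?_, h1, ?_, ?_⟩
      · rfl
      · decide
      · decide
      · decide
    · have hb := sol_bot 4 {3, 4} 3 (by norm_num) (by norm_num)
      have h1 := sol_zero hb 4 (by norm_num) (by norm_num)
      have h2 := sol_zero h1 2 (by norm_num) (by norm_num)
      refine ⟨{1, 2}, _, _, _, rfl, ?_, ?_, h2, ?_, ?_⟩
      · rfl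
      · decide
      · decide
      · decide
    · have hb := sol_bot 4 {3, 4} 3 (by norm_num) (by norm_num)
      have h1 := sol_zero hb 4 (by norm_num) (by norm_num)
      have h2 := sol_zero h1 4 (by norm_num) (by norm_num)
      have h3 := sol_zero h2 2 (by norm_num) (by norm_num)
      refine ⟨{1, 2}, _, _, _, rfl, ?_, ?_, h3, ?_, ?_⟩
      · rfl
      · decide
      · decide
      · decide
  have hcases : (b = 1 ∧ b' = 2 ∧ p = 3) ∨ (b = 2 ∧ b' = 1 ∧ p = 3) ∨ (b = 2 ∧ b' = 2 ∧ p = 4) := by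
    omega
  rcases hcases with ⟨rfl, rfl, rfl⟩ | ⟨rfl, rfl, rfl⟩ | ⟨rfl, rfl, rfl⟩
  · exact key3 r hr (by omega)
  · exact (eqv_broom 1 2 r).solved (key3 r hr (by omega))
  · exact key4 r hr (by omega)

theorem broom (hRE : RE) : Broom := by
  intro p b b' r hp hb hb' hbb hr hrp
  by_cases h1 : 3 ≤ b'
  · exact broom_main hRE p b b' r hp hb h1 hbb hr hrp
  by_cases h2 : 3 ≤ b
  · exact (eqv_broom b' b r).solved (broom_main hRE p b' b r hp hb' h2 (by omega) hr hrp)
  · exact broom_small p b b' r hp hb hb' (by omega) (by omega) hbb hr hrp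

end Pool.Agent.Helper10.Irr
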