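import Pool.Agent.Helper87.Irr.GoalsT

/-!
MP_033e98_co, packet TTriple: the triple.
-/

namespace Pool.Agent.Helper10.Irr

open Irr37 Irr87

theorem tTriple (hPT : PT) : TTriple := by
  intro p s l l₁ l₂ k R y₁ y₂ g _ _ hS
  obtain ⟨res, hres, hk, hfill⟩ := hS
  refine ⟨res, hres, hk, ?_⟩
  intro z hz V fill hIn hV hcard hf hnd
  simp only [RF.size, RF.leaves, app_size, app_leaves] at hV hcard
  have hk' : Multiset.card res.val = k := hk
  rw [hk'] at hcard
  obtain ⟨A, A₁, A₂, hA, hA₁, hA₂, hsum, hPTc⟩ := hfill fill hf hnd (by omega)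
  obtain ⟨x, y, h1, h2, h3, h4, h5, h6, h7, h8, h9, h10, h11, h12, h13⟩ :=
    hPT p s z (A.sum + p * g.width + (p - z)) (A₁.sum + p * y₁.width) (A₂.sum + p * y₂.width) V
      hIn (by omega) hPTc (by omega)
  have q2 := PS.vert (A := A₂) h3 h4 (PS.cutAll p y₂) (PS.cutAll p g)
  have q1 := PS.vert (A := A₁) h1 h2 (PS.cutAll p y₁) q2
  have q0 := PS.single (A := A) (y := p - z) (by omega) (by omega) q1
  rw [hA, hA₁, hA₂] at q0
  have hL : A + (A₁ + 0 + (A₂ + 0 + 0)) = res.val + fill := by
    rw [← hsum]; simp only [add_zero]; rw [add_assoc]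
  rw [hL] at q0
  refine ⟨_, q0, ?_, ?_⟩
  · simp only [zero_add, Multiset.nodup_cons, Multiset.mem_cons, Multiset.notMem_zero,
      or_false, not_false_iff, Multiset.nodup_zero, and_true]
    refine ⟨?_, ?_⟩
    · rintro (h | h)
      · exact h12 (by omega)
      · exact h13 (by omega)
    · intro h; exact h11 h
  · intro w hw
    simp only [zero_add, Multiset.mem_cons, Multiset.notMem_zero, or_false] at hw
    have e : A.sum + (x + (y + p * g.width)) + (p - z) =
        A.sum + p * g.width + (p - z) + x + y := by omega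
    rcases hw with rfl | rfl | rfl
    · rw [e]; exact ⟨h9, h10⟩
    · exact ⟨h5, h6⟩
    · exact ⟨h7, h8⟩

end Pool.Agent.Helper10.Irr
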